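import Pool.Agent.H77.PM.Targets

/-!
# MP_5607ba_lc: FAM, a perfect family of closed sets which are not isometric.
-/

set_option autoImplicit false

open Set Filter Topology

namespace Pool.Agent.H35.PM

open Pool.Agent.H77.PM

/-- The indices of the pairs chosen by `u`. -/
def kk (u : ℕ → Bool) (n : ℕ) : ℕ := 2 * n + (if u n then 1 else 0)

theorem kk_inj (u v : ℕ → Bool) (n n' : ℕ) (h : kk u n = kk v n') : n = n' ∧ u n = v n' := by
  unfold kk at h
  rcases hu : u n <;> rcases hv : v n' <;> simp [hu, hv] at h ⊢ <;> omega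

/-- The enumeration with repetitions. -/
def rr {M : Type} (m c : ℕ) (p w x y : ℕ → M) (u : ℕ → Bool) (i : ℕ) : M :=
  if i < m then p i else if i < m + c then w (i - m) else
    if (i - (m + c)) % 2 = 0 then x (kk u ((i - (m + c)) / 2)) else y (kk u ((i - (m + c)) / 2))

theorem rr_lt {M : Type} (m c : ℕ) (p w x y : ℕ → M) (u : ℕ → Bool) (i : ℕ) (h : i < m) :
    rr m c p w x y u i = p i := by
  simp [rr, h]

theorem rr_mid {M : Type} (m c : ℕ) (p w x y : ℕ → M) (u : ℕ → Bool) (t : ℕ) (h : t < c) :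
    rr m c p w x y u (m + t) = w t := by
  have h1 : ¬ (m + t < m) := by omega
  have h2 : m + t < m + c := by omega
  simp [rr, h]

theorem rr_x {M : Type} (m c : ℕ) (p w x y : ℕ → M) (u : ℕ → Bool) (n : ℕ) :
    rr m c p w x y u (m + c + 2 * n) = x (kk u n) := by
  have h1 : ¬ (m + c + 2 * n < m) := by omega
  have h2 : ¬ (m + c + 2 * n < m + c) := by omega
  have h3 : m + c + 2 * n - (m + c) = 2 * n := by omega
  have h4 : 2 * n % 2 = 0 := by omega
  have h5 : 2 * n / 2 = n := by omega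
  unfold rr
  rw [if_neg h1, if_neg h2, h3, if_pos h4, h5]

theorem rr_y {M : Type} (m c : ℕ) (p w x y : ℕ → M) (u : ℕ → Bool) (n : ℕ) :
    rr m c p w x y u (m + c + (2 * n + 1)) = y (kk u n) := by
  have h1 : ¬ (m + c + (2 * n + 1) < m) := by omega
  have h2 : ¬ (m + c + (2 * n + 1) < m + c) := by omega
  have h3 : m + c + (2 * n + 1) - (m + c) = 2 * n + 1 := by omega
  have h4 : ¬ ((2 * n + 1) % 2 = 0) := by omega
  have h5 : (2 * n + 1) / 2 = n := by omega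
  unfold rr
  rw [if_neg h1, if_neg h2, h3, if_neg h4, h5]

theorem rr_LC {M : Type} (m c : ℕ) (p w x y : ℕ → M) : LC (rr m c p w x y) := by
  intro i u
  refine ⟨(i - (m + c)) / 2 + 1, fun v hv => ?_⟩
  have h := hv ((i - (m + c)) / 2) (Nat.lt_succ_self _)
  have hk : kk v ((i - (m + c)) / 2) = kk u ((i - (m + c)) / 2) := by
    unfold kk; rw [h]
  unfold rr
  rw [hk]

theorem rr_range {M : Type} (m c : ℕ) (p w x y : ℕ → M) (W' : Set M)
    (hp : ∀ i < m, p i ∈ W') (hw : ∀ t < c, w t ∈ W') (hw' : ∀ z ∈ W', ∃ t < c, w t = z)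
    (u : ℕ → Bool) :
    range (rr m c p w x y u) = W' ∪ x '' (range (kk u)) ∪ y '' (range (kk u)) := by
  apply Subset.antisymm
  · rintro _ ⟨i, rfl⟩
    by_cases h1 : i < m
    · rw [rr_lt _ _ _ _ _ _ _ _ h1]
      exact Or.inl (Or.inl (hp i h1))
    · by_cases h2 : i < m + c
      · obtain ⟨t, rfl⟩ : ∃ t, i = m + t := ⟨i - m, by omega⟩
        have ht : t < c := by omega
        rw [rr_mid _ _ _ _ _ _ _ _ ht]
        exact Or.inl (Or.inl (hw t ht))
      · rcases Nat.mod_two_eq_zero_or_one (i - (m + c)) with h3 | h3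
        · obtain ⟨n, rfl⟩ : ∃ n, i = m + c + 2 * n := ⟨(i - (m + c)) / 2, by omega⟩
          rw [rr_x]
          exact Or.inl (Or.inr ⟨_, ⟨n, rfl⟩, rfl⟩)
        · obtain ⟨n, rfl⟩ : ∃ n, i = m + c + (2 * n + 1) := ⟨(i - (m + c)) / 2, by omega⟩
          rw [rr_y]
          exact Or.inr ⟨_, ⟨n, rfl⟩, rfl⟩
  · rintro z ((hz | ⟨_, ⟨n, rfl⟩, rfl⟩) | ⟨_, ⟨n, rfl⟩, rfl⟩)
    · obtain ⟨t, ht, rfl⟩ := hw' z hz
      exact ⟨m + t, rr_mid _ _ _ _ _ _ _ _ ht⟩
    · exact ⟨m + c + 2 * n, rr_x _ _ _ _ _ _ _ _⟩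
    · exact ⟨m + c + (2 * n + 1), rr_y _ _ _ _ _ _ _ _⟩

theorem pf_FAM (hSEL : T_SEL) (hINJ : T_INJ) : T_FAM := by
  classical
  intro M _ _ p m hp hinf
  obtain ⟨W', x, y, hW, hcl, hne⟩ := hSEL M ((Finset.range m).image p) hinf
  have hpW : ∀ i < m, p i ∈ (W' : Set M) := fun i hi =>
    hW (Finset.mem_image_of_mem p (Finset.mem_range.2 hi))
  obtain ⟨c, w, hw, hw'⟩ : ∃ (c : ℕ) (w : ℕ → M), (∀ t < c, w t ∈ (W' : Set M)) ∧
      ∀ z ∈ (W' : Set M), ∃ t < c, w t = z := by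
    refine ⟨W'.toList.length, fun t => W'.toList.getD t (p 0), fun t ht => ?_, fun z hz => ?_⟩
    · have : W'.toList.getD t (p 0) ∈ W'.toList := by
        rw [List.getD_eq_getElem _ _ ht]
        exact List.getElem_mem ht
      exact Finset.mem_coe.2 (Finset.mem_toList.1 this)
    · have hz' : z ∈ W'.toList := Finset.mem_toList.2 (Finset.mem_coe.1 hz)
      obtain ⟨t, ht, h⟩ := List.getElem_of_mem hz'
      refine ⟨t, ht, ?_⟩
      show W'.toList.getD t (p 0) = z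
      rw [List.getD_eq_getElem _ _ ht, h]
  have hrange := rr_range m c p w x y (W' : Set M) hpW hw hw'
  have hdiff : ∀ k l, l ≠ k → dist (x l) (y l) ≠ dist (x k) (y k) := fun k l hkl =>
    hne k (x l) (y l) (Or.inr ⟨l, hkl, Or.inl rfl⟩) (Or.inr ⟨l, hkl, Or.inr rfl⟩)
  have hinf' : ∀ u, (range (rr m c p w x y u)).Infinite := by
    intro u hfin
    have h1 : (range fun n => dist (x (kk u n)) (y (kk u n))).Infinite := by
      apply infinite_range_of_injective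
      intro a b hab
      by_contra hne'
      have hk : kk u a ≠ kk u b := fun h => hne' (kk_inj u u a b h).1
      exact hdiff (kk u b) (kk u a) hk hab
    apply h1
    apply ((hfin.prod hfin).image fun ab : M × M => dist ab.1 ab.2).subset
    rintro _ ⟨n, rfl⟩
    exact ⟨(x (kk u n), y (kk u n)), ⟨⟨_, rr_x _ _ _ _ _ _ _ n⟩, ⟨_, rr_y _ _ _ _ _ _ _ n⟩⟩, rfl⟩
  obtain ⟨q, hq1, hq2, hq3, hq4⟩ := hINJ M m p (rr m c p w x y) hp hinf'
    (fun u i hi => rr_lt _ _ _ _ _ _ _ _ hi) (rr_LC m c p w x y)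
  refine ⟨q, hq4, hq1, fun u => ?_, hq3, ?_⟩
  · rw [hq2 u, hrange u]
    exact hcl _
  · rintro u v huv ⟨e, he⟩
    obtain ⟨n, hn⟩ : ∃ n, u n ≠ v n := by
      by_contra h
      push Not at h
      exact huv (funext h)
    have hK : ∀ l ∈ range (kk v), l ≠ kk u n := by
      rintro _ ⟨n', rfl⟩ h
      obtain ⟨h1, h2⟩ := kk_inj v u n' n h
      subst h1
      exact hn h2.symm
    have hmem : ∀ a ∈ range (q v), (a ∈ W' ∨ ∃ l, l ≠ kk u n ∧ (a = x l ∨ a = y l)) := by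
      intro a ha
      rw [hq2 v, hrange v] at ha
      rcases ha with (ha | ⟨l, hl, rfl⟩) | ⟨l, hl, rfl⟩
      · exact Or.inl (Finset.mem_coe.1 ha)
      · exact Or.inr ⟨l, hK l hl, Or.inl rfl⟩
      · exact Or.inr ⟨l, hK l hl, Or.inr rfl⟩
    have hx : x (kk u n) ∈ range (q u) := by
      rw [hq2 u]; exact ⟨_, rr_x _ _ _ _ _ _ _ n⟩
    have hy : y (kk u n) ∈ range (q u) := by
      rw [hq2 u]; exact ⟨_, rr_y _ _ _ _ _ _ _ n⟩
    obtain ⟨i, hi⟩ := hx
    obtain ⟨j, hj⟩ := hy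
    refine hne (kk u n) (q v (e i)) (q v (e j)) (hmem _ ⟨_, rfl⟩) (hmem _ ⟨_, rfl⟩) ?_
    rw [he i j, hi, hj]

end Pool.Agent.H35.PM
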